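import Pool.Agent.TNP.Assembly

/-!
# The Teichmüller norm is plurisubharmonic on the tangent bundle (MP_452786_gt, Q1)

For every holomorphic disc `t ↦ (X t, [κ t])` in the tangent bundle of Teichmüller space the
Teichmüller norm `F (X t, [κ t])` is continuous and subharmonic in `t`.
-/

set_option autoImplicit false

namespace Pool.Agent.Results.MP_452786_gt.NormIsPsh

open Pool.Agent.TNP

theorem result (U : Set ℂ) (X : ℂ → Surf) (κ : ℂ → ℂ → ℂ) (hU : IsOpen U)
    (h : IsDisc U X κ) : Subharm U (fun t => F (X t) (κ t)) :=
  Assembly.main U X κ hU h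

end Pool.Agent.Results.MP_452786_gt.NormIsPsh
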