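import Pool.Agent.TNQ.SurfMain

/-!
# The Teichmüller norm is not strictly plurisubharmonic along any fibre (MP_452786_gt, Q2)

Let `X` be a compact connected Riemann surface with `dim Q(X) ≥ 3` (`= 3g - 3` for genus `g ≥ 2`).
The fibre `T_X T_g` of the tangent bundle of Teichmüller space is `V = Q(X)^*`, with the
Teichmüller norm, the dual of the `L¹` norm. Whenever it is immersed in a complex manifold `M`
(such as the tangent bundle), a function on `M` which restricts to the Teichmüller norm on the
fibre is not strictly plurisubharmonic on any set which contains the nonzero vectors of the fibre.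
-/

set_option autoImplicit false

open scoped Manifold ContDiff

namespace Pool.Agent.Results.MP_452786_gt.NotStrictEveryFibre

open Pool.Agent.TNQ

theorem result (X : Type*) [TopologicalSpace X] [T2Space X] [CompactSpace X]
    [ConnectedSpace X] [ChartedSpace ℂ X] [IsManifold 𝓘(ℂ) ω X] [MeasurableSpace X]
    [BorelSpace X] (hk : 3 ≤ Module.finrank ℂ (QSp X))
    (V : Type*) [NormedAddCommGroup V] [NormedSpace ℂ V] (φ : V ≃ₗ[ℂ] (QSp X →ₗ[ℂ] ℂ))
    (E : Type*) [NormedAddCommGroup E] [InnerProductSpace ℂ E] [FiniteDimensional ℂ E]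
    (M : Type*) [TopologicalSpace M] [ChartedSpace E M] [IsManifold 𝓘(ℂ, E) ω M]
    (j : V → M) (u : M → ℝ) (O : Set M) (h : FibreIn (E := E) (qn (X := X)) φ j u O) :
    ¬ StrictPsh (E := E) u O :=
  fibre_main X hk V φ E M j u O h

end Pool.Agent.Results.MP_452786_gt.NotStrictEveryFibre
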