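import Pool.Agent.TNQ.HyperMain

/-!
# The Teichmüller norm is not strictly plurisubharmonic (MP_452786_gt, Q2)

For every genus `g ≥ 2` and every hyperelliptic curve `X : y² = ∏ (x - t j)`, `2 g + 2` distinct
branch points, the restriction of the Teichmüller norm `F` to the fibre `T_X T_g` of the tangent
bundle of Teichmüller space (`= Q (X)^*`, a complex submanifold of the tangent bundle) is not
strictly plurisubharmonic outside the origin.
-/

set_option autoImplicit false

namespace Pool.Agent.Results.MP_452786_gt.NotStrictHyperelliptic

open Pool.Agent.TNQ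

theorem result (g : ℕ) (hg : 2 ≤ g) (t : Fin (2 * g + 2) → ℂ) (ht : Function.Injective t) :
    ¬ StrictPshOn (hyperF t) {l | l ≠ 0} :=
  hyper_not_strict g hg t ht

end Pool.Agent.Results.MP_452786_gt.NotStrictHyperelliptic
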